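import Pool.Agent.MWGX.StmtsB

/-!
# MWGX, row FEP: the FE pentagon
-/

set_option autoImplicit false

namespace Pool.Agent.MWGX.H88

/-- FEP -/
theorem fep (h1 : PegStmt) (h2 : FewStmt) (h3 : Di2Stmt) : FepStmt := by
  intro n β hM hG hI hD hE
  exact h2 n β hG (h3 n β hG hI).1 hE fun m τ ht => h1 n β hM hG hI hD hE m τ ht

end Pool.Agent.MWGX.H88
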